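import Mathlib

/-!
# The corner connection tile number never exceeds the traditional tile number

Both tile sets consist of the same eleven combinatorial types, once the four
possible connection points of a tile are numbered `0, 1, 2, 3` counterclockwise:
the blank tile, four single arcs joining cyclically adjacent connection points,
two segments joining opposite connection points, two pairs of disjoint arcs and
two crossings.  For a traditional tile the connection points are the midpoints
of the edges (east, north, west, south), for a corner connection tile they are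
the corners (north-east, north-west, south-west, south-east).

Every tile is drawn inside the quadrilateral spanned by its four connection
points; crossings are resolved by lifting the over-strand out of the plane.
-/

namespace Pool.Agent.Results.MP_9b4fc7_gt.CornerLeTraditional

open Set

/-- Euclidean three-space; the mosaics lie in the plane `z = 0` (apart from the
lifted over-strands). -/
abbrev Space : Type := ℝ × ℝ × ℝ

/-- The eleven combinatorial tile types; connection points are numbered
`0, 1, 2, 3` counterclockwise. -/
inductive Tile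
  /-- the blank tile -/
  | blank
  /-- one arc, joining the connection points `k` and `k + 1` (mod `4`) -/
  | arc (k : Fin 4)
  /-- one segment: `false` joins `0` and `2`, `true` joins `1` and `3` -/
  | seg (b : Bool)
  /-- two disjoint arcs: `false` joins `0, 1` and `2, 3`, `true` joins `1, 2` and `3, 0` -/
  | arcs (b : Bool)
  /-- a crossing: `false` has the strand `0, 2` over, `true` the strand `1, 3` over -/
  | cross (b : Bool)

/-- Does the tile have an arc end at the connection point `k`? -/
def Tile.ends : Tile → Fin 4 → Prop
  | .blank, _ => False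
  | .arc a, k => k = a ∨ k = a + 1
  | .seg false, k => k = 0 ∨ k = 2
  | .seg true, k => k = 1 ∨ k = 3
  | .arcs _, _ => True
  | .cross _, _ => True

/-- The four vertices of the model quadrilateral: `(1,0), (0,1), (-1,0), (0,-1)`. -/
def port : Fin 4 → Space
  | 0 => (1, 0, 0)
  | 1 => (0, 1, 0)
  | 2 => (-1, 0, 0)
  | 3 => (0, -1, 0)

/-- The interior point through which the arc from `port k` to `port (k+1)` is drawn. -/
noncomputable def mid : Fin 4 → Space
  | 0 => (1 / 3, 1 / 3, 0)
  | 1 => (-1 / 3, 1 / 3, 0)
  | 2 => (-1 / 3, -1 / 3, 0)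
  | 3 => (1 / 3, -1 / 3, 0)

/-- The arc joining `port k` to `port (k+1)`, drawn inside the model quadrilateral. -/
noncomputable def arcSet (k : Fin 4) : Set Space :=
  segment ℝ (port k) (mid k) ∪ segment ℝ (mid k) (port (k + 1))

/-- The over-strand of a crossing: from `port k` up to `(0,0,1)` and down to `port (k+2)`. -/
noncomputable def overSet (k : Fin 4) : Set Space :=
  segment ℝ (port k) (0, 0, 1) ∪ segment ℝ (0, 0, 1) (port (k + 2))

/-- The curve pieces carried by a tile, in the model quadrilateral with vertices
`(±1, 0), (0, ±1)`. -/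
noncomputable def Tile.strands : Tile → Set Space
  | .blank => ∅
  | .arc k => arcSet k
  | .seg false => segment ℝ (port 0) (port 2)
  | .seg true => segment ℝ (port 1) (port 3)
  | .arcs false => arcSet 0 ∪ arcSet 2
  | .arcs true => arcSet 1 ∪ arcSet 3
  | .cross false => overSet 0 ∪ segment ℝ (port 1) (port 3)
  | .cross true => overSet 1 ∪ segment ℝ (port 0) (port 2)

/-- An `n`-mosaic: `tile i j` is the tile occupying the unit square
`[i, i+1] × [j, j+1]`, for `0 ≤ i, j < n`; outside this range we set it blank. -/
structure Mosaic (n : ℕ) where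
  /-- the tile in the square `[i, i+1] × [j, j+1]` -/
  tile : ℤ → ℤ → Tile
  /-- nothing lies outside the `n × n` array -/
  outside : ∀ i j : ℤ, ¬ (0 ≤ i ∧ i < n ∧ 0 ≤ j ∧ j < n) → tile i j = Tile.blank

/-- The number of non-blank tiles of a mosaic. -/
noncomputable def Mosaic.nonblank {n : ℕ} (M : Mosaic n) : ℕ :=
  {ij : ℤ × ℤ | M.tile ij.1 ij.2 ≠ Tile.blank}.ncard

/-- Placement of the model quadrilateral in the square `[i, i+1] × [j, j+1]` for the
traditional tiles: its vertices go to the midpoints of the east, north, west and south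
edges. -/
noncomputable def placeTraditional (i j : ℤ) (v : Space) : Space :=
  (i + 1 / 2 + v.1 / 2, j + 1 / 2 + v.2.1 / 2, v.2.2)

/-- Placement of the model quadrilateral in the square `[i, i+1] × [j, j+1]` for the
corner connection tiles: its vertices go to the north-east, north-west, south-west and
south-east corners. -/
noncomputable def placeCorner (i j : ℤ) (v : Space) : Space :=
  (i + 1 / 2 + (v.1 - v.2.1) / 2, j + 1 / 2 + (v.1 + v.2.1) / 2, v.2.2)

/-- The subset of space obtained by drawing all tiles as traditional tiles. -/
noncomputable def Mosaic.traditionalSet {n : ℕ} (M : Mosaic n) : Set Space :=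
  ⋃ (i : ℤ) (j : ℤ), placeTraditional i j '' (M.tile i j).strands

/-- The subset of space obtained by drawing all tiles as corner connection tiles. -/
noncomputable def Mosaic.cornerSet {n : ℕ} (M : Mosaic n) : Set Space :=
  ⋃ (i : ℤ) (j : ℤ), placeCorner i j '' (M.tile i j).strands

/-- Suitably connected, traditional tiles: an edge midpoint is a connection point of the
tile on one side iff it is a connection point of the tile on the other side (tiles outside
the array being blank, nothing ends on the outer boundary). -/
def Mosaic.TraditionalConnected {n : ℕ} (M : Mosaic n) : Prop :=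
  (∀ i j : ℤ, (M.tile i j).ends 0 ↔ (M.tile (i + 1) j).ends 2) ∧
  (∀ i j : ℤ, (M.tile i j).ends 1 ↔ (M.tile i (j + 1)).ends 3)

open Classical in
/-- The number of arc ends meeting at the grid point `(p, q)` when the tiles are corner
connection tiles.  The grid point is the north-east corner of the square at
`(p-1, q-1)`, the north-west corner of the one at `(p, q-1)`, the south-west corner of the
one at `(p, q)` and the south-east corner of the one at `(p-1, q)`. -/
noncomputable def Mosaic.endsAt {n : ℕ} (M : Mosaic n) (p q : ℤ) : ℕ :=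
  (if (M.tile (p - 1) (q - 1)).ends 0 then 1 else 0) +
  (if (M.tile p (q - 1)).ends 1 then 1 else 0) +
  (if (M.tile p q).ends 2 then 1 else 0) +
  (if (M.tile (p - 1) q).ends 3 then 1 else 0)

/-- Suitably connected, corner connection tiles: at every grid point `0` or `2` arc ends
meet. -/
def Mosaic.CornerConnected {n : ℕ} (M : Mosaic n) : Prop :=
  ∀ p q : ℤ, M.endsAt p q = 0 ∨ M.endsAt p q = 2

/-- Ambient isotopy of subsets of space. -/
def Isotopic (A B : Set Space) : Prop :=
  ∃ H : unitInterval → (Space ≃ₜ Space),
    Continuous (fun p : unitInterval × Space => H p.1 p.2) ∧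
    H 0 = Homeomorph.refl Space ∧ H 1 '' A = B

/-- The tile number `t(K)`: the least number of non-blank tiles in a knot mosaic of any
size built from traditional tiles whose link is ambient isotopic to `K`
(`⊤` if there is none). -/
noncomputable def tileNumber (K : Set Space) : ℕ∞ :=
  sInf {m : ℕ∞ | ∃ (n : ℕ) (M : Mosaic n),
    M.TraditionalConnected ∧ Isotopic M.traditionalSet K ∧ m = M.nonblank}

/-- The corner connection tile number `t_cc(K)`: the least number of non-blank tiles in a
knot mosaic of any size built from corner connection tiles whose link is ambient isotopic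
to `K` (`⊤` if there is none). -/
noncomputable def cornerTileNumber (K : Set Space) : ℕ∞ :=
  sInf {m : ℕ∞ | ∃ (n : ℕ) (M : Mosaic n),
    M.CornerConnected ∧ Isotopic M.cornerSet K ∧ m = M.nonblank}

/-! ## The similarity turning a traditional mosaic into a corner connection mosaic -/

/-- The map `(x, y, z) ↦ (x - s y + s a, s x + y - s/2, z)`. -/
noncomputable def turn (a s : ℝ) : Space ≃ₜ Space where
  toFun v := (v.1 - s * v.2.1 + s * a, s * v.1 + v.2.1 - s / 2, v.2.2)
  invFun w :=
    (((w.1 - s * a) + s * (w.2.1 + s / 2)) / (1 + s ^ 2),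
      ((w.2.1 + s / 2) - s * (w.1 - s * a)) / (1 + s ^ 2), w.2.2)
  left_inv v := by
    have h : (1 + s ^ 2 : ℝ) ≠ 0 := by positivity
    obtain ⟨x, y, z⟩ := v
    simp only [Prod.mk.injEq]
    refine ⟨?_, ?_, trivial⟩
    · field_simp; ring
    · field_simp; ring
  right_inv w := by
    have h : (1 + s ^ 2 : ℝ) ≠ 0 := by positivity
    obtain ⟨x, y, z⟩ := w
    simp only [Prod.mk.injEq]
    refine ⟨?_, ?_, trivial⟩
    · field_simp; ring
    · field_simp; ring
  continuous_toFun := by fun_prop
  continuous_invFun := by fun_prop

theorem turn_zero (a : ℝ) : turn a 0 = Homeomorph.refl Space := by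
  ext1 v
  obtain ⟨x, y, z⟩ := v
  simp [turn]

theorem turn_symm_continuous (a : ℝ) :
    Continuous (fun p : unitInterval × Space => (turn a p.1).symm p.2) := by
  have h : (fun p : unitInterval × Space => (turn a p.1).symm p.2) =
      fun p => (((p.2.1 - p.1 * a) + p.1 * (p.2.2.1 + p.1 / 2)) / (1 + (p.1 : ℝ) ^ 2),
      ((p.2.2.1 + p.1 / 2) - p.1 * (p.2.1 - p.1 * a)) / (1 + (p.1 : ℝ) ^ 2), p.2.2.2) := rfl
  rw [h]
  have hne : ∀ p : unitInterval × Space, (1 + (p.1 : ℝ) ^ 2) ≠ 0 := fun p => by positivity
  refine Continuous.prodMk ?_ (Continuous.prodMk ?_ ?_)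
  · refine Continuous.div (by fun_prop) (by fun_prop) hne
  · refine Continuous.div (by fun_prop) (by fun_prop) hne
  · fun_prop

/-- Undoing the similarity is an ambient isotopy. -/
theorem isotopic_of_turn (a : ℝ) {A K : Set Space} (h : Isotopic A K) :
    Isotopic (turn a 1 '' A) K := by
  obtain ⟨H, hc, h0, h1⟩ := h
  refine ⟨fun s => (turn a s).symm.trans (H s), ?_, ?_, ?_⟩
  · exact hc.comp (continuous_fst.prodMk (turn_symm_continuous a))
  · simp only [h0]
    have : ((0 : unitInterval) : ℝ) = 0 := rfl
    rw [this, turn_zero]
    rfl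
  · rw [← h1]
    have h : ∀ w, ((turn a ((1 : unitInterval) : ℝ)).symm.trans (H 1)) (turn a 1 w) = H 1 w := by
      intro w
      have : ((1 : unitInterval) : ℝ) = 1 := rfl
      rw [this]
      simp
    change ((turn a ((1 : unitInterval) : ℝ)).symm.trans (H 1)) '' (turn a 1 '' A) = H 1 '' A
    rw [image_image]
    exact image_congr fun w _ => h w

theorem turn_place (n : ℕ) (i j : ℤ) (v : Space) :
    turn (n - 1 / 2) 1 (placeTraditional i j v) =
      placeCorner (i - j + (n - 1)) (i + j) v := by
  obtain ⟨x, y, z⟩ := v
  simp only [turn, placeTraditional, placeCorner, Homeomorph.homeomorph_mk_coe,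
    Equiv.coe_fn_mk, Prod.mk.injEq]
  push_cast
  refine ⟨by ring, by ring, trivial⟩

/-- The mosaic turned by 45 degrees: the tile at `(i, j)` is moved to
`(i - j + n - 1, i + j)`, all other tiles are blank. -/
def turned {n : ℕ} (M : Mosaic n) : Mosaic (2 * n) where
  tile p q :=
    if (p + q - (n - 1)) % 2 = 0 then
      M.tile ((p + q - (n - 1)) / 2) ((q - p + (n - 1)) / 2) else Tile.blank
  outside p q h := by
    split_ifs with hp
    · apply M.outside
      intro hij
      apply h
      push_cast
      omega
    · rfl

theorem turned_tile {n : ℕ} (M : Mosaic n) (i j : ℤ) :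
    (turned M).tile (i - j + (n - 1)) (i + j) = M.tile i j := by
  simp only [turned]
  rw [if_pos (by omega)]
  congr 1
  · omega
  · omega

theorem turned_odd {n : ℕ} (M : Mosaic n) (p q : ℤ) (h : (p + q - (n - 1)) % 2 ≠ 0) :
    (turned M).tile p q = Tile.blank := by
  simp only [turned]
  rw [if_neg h]

theorem exists_of_even {n : ℤ} (p q : ℤ) (h : (p + q - (n - 1)) % 2 = 0) :
    ∃ i j : ℤ, p = i - j + (n - 1) ∧ q = i + j :=
  ⟨(p + q - (n - 1)) / 2, (q - p + (n - 1)) / 2, by omega, by omega⟩

theorem turned_set {n : ℕ} (M : Mosaic n) :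
    (turned M).cornerSet = turn (n - 1 / 2) 1 '' M.traditionalSet := by
  ext w
  constructor
  · intro hw
    simp only [Mosaic.cornerSet, mem_iUnion] at hw
    obtain ⟨p, q, v, hv, rfl⟩ := hw
    by_cases h : (p + q - (n - 1 : ℤ)) % 2 = 0
    · obtain ⟨i, j, rfl, rfl⟩ := exists_of_even p q h
      rw [turned_tile] at hv
      refine ⟨placeTraditional i j v, ?_, turn_place n i j v⟩
      simp only [Mosaic.traditionalSet, mem_iUnion]
      exact ⟨i, j, v, hv, rfl⟩
    · rw [turned_odd M p q h] at hv
      exact hv.elim
  · rintro ⟨u, hu, rfl⟩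
    simp only [Mosaic.traditionalSet, mem_iUnion] at hu
    obtain ⟨i, j, v, hv, rfl⟩ := hu
    simp only [Mosaic.cornerSet, mem_iUnion]
    exact ⟨i - j + (n - 1), i + j, v, by rwa [turned_tile], (turn_place n i j v).symm⟩

theorem turned_nonblank {n : ℕ} (M : Mosaic n) : (turned M).nonblank = M.nonblank := by
  symm
  unfold Mosaic.nonblank
  refine ncard_congr (fun (ij : ℤ × ℤ) _ => (ij.1 - ij.2 + (n - 1 : ℤ), ij.1 + ij.2)) ?_ ?_ ?_
  · rintro ⟨i, j⟩ h
    simp only [mem_ofPred_eq] at h ⊢
    rwa [turned_tile]
  · rintro ⟨i, j⟩ ⟨i', j'⟩ _ _ h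
    simp only [Prod.mk.injEq] at h ⊢
    omega
  · rintro ⟨p, q⟩ h
    simp only [mem_ofPred_eq] at h
    by_cases hp : (p + q - (n - 1 : ℤ)) % 2 = 0
    · obtain ⟨i, j, rfl, rfl⟩ := exists_of_even p q hp
      rw [turned_tile] at h
      exact ⟨(i, j), h, rfl⟩
    · exact absurd (turned_odd M p q hp) h

theorem blank_ends (k : Fin 4) : ¬ Tile.blank.ends k := by
  simp [Tile.ends]

theorem turned_connected {n : ℕ} (M : Mosaic n) (hM : M.TraditionalConnected) :
    (turned M).CornerConnected := by
  classical
  obtain ⟨hEW, hNS⟩ := hM
  intro p q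
  by_cases h : (p + q - (n - 1 : ℤ)) % 2 = 0
  · -- the south-west corner of `(p, q)` and the north-east corner of `(p-1, q-1)`
    obtain ⟨i, j, rfl, rfl⟩ := exists_of_even p q h
    have e1 : (turned M).tile (i - j + (n - 1) - 1) (i + j - 1) = M.tile (i - 1) j := by
      rw [← turned_tile M (i - 1) j]; congr 1 <;> ring
    have e2 : (turned M).tile (i - j + (n - 1)) (i + j - 1) = Tile.blank :=
      turned_odd M _ _ (by omega)
    have e3 : (turned M).tile (i - j + (n - 1)) (i + j) = M.tile i j := turned_tile M i j
    have e4 : (turned M).tile (i - j + (n - 1) - 1) (i + j) = Tile.blank :=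
      turned_odd M _ _ (by omega)
    unfold Mosaic.endsAt
    rw [e1, e2, e3, e4]
    have := hEW (i - 1) j
    rw [sub_add_cancel] at this
    by_cases h2 : (M.tile i j).ends 2
    · right; simp [this.2 h2, h2, blank_ends]
    · left; simp [mt this.1 h2, h2, blank_ends]
  · -- the south-east corner of `(p-1, q)` and the north-west corner of `(p, q-1)`
    obtain ⟨i, j, hp, hq⟩ := exists_of_even (n := n) (p - 1) q (by omega)
    have e1 : (turned M).tile (p - 1) (q - 1) = Tile.blank := turned_odd M _ _ (by omega)
    have e2 : (turned M).tile p (q - 1) = M.tile i (j - 1) := by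
      rw [← turned_tile M i (j - 1)]; congr 1 <;> omega
    have e3 : (turned M).tile p q = Tile.blank := turned_odd M _ _ h
    have e4 : (turned M).tile (p - 1) q = M.tile i j := by
      rw [← turned_tile M i j]; congr 1
    unfold Mosaic.endsAt
    rw [e1, e2, e3, e4]
    have := hNS i (j - 1)
    rw [sub_add_cancel] at this
    by_cases h2 : (M.tile i j).ends 3
    · right; simp [this.2 h2, h2, blank_ends]
    · left; simp [mt this.1 h2, h2, blank_ends]

/-- For every knot (indeed every subset) `K` of three-space, the corner connection tile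
number is at most the traditional tile number. -/
theorem result (K : Set Space) : cornerTileNumber K ≤ tileNumber K := by
  unfold cornerTileNumber tileNumber
  refine le_sInf ?_
  rintro m ⟨n, M, hc, hi, rfl⟩
  refine sInf_le ⟨2 * n, turned M, turned_connected M hc, ?_, ?_⟩
  · rw [turned_set]
    exact isotopic_of_turn _ hi
  · rw [turned_nonblank]

end Pool.Agent.Results.MP_9b4fc7_gt.CornerLeTraditional
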